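import Mathlib
import Pool.Agent.Lib.MP_0c755a_co.Defs
import Pool.Agent.Lib.MP_0c755a_co.Plane

namespace Pool.Agent.Results.MP_0c755a_co.OrderOfGrowth

open Pool.Agent.Lib.MP_0c755a_co

/-- Gowers' function `f(n)` is well defined and has order of growth `n ^ 2`. -/
theorem result :
    (∀ n : ℕ, 3 ≤ n → ∀ P : Finset (EuclideanSpace ℝ (Fin 2)), gf n ≤ P.card →
      HasLineOrGP n P) ∧
    ∃ c C : ℝ, 0 < c ∧ 0 < C ∧ ∀ n : ℕ, 3 ≤ n →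
      c * (n : ℝ) ^ 2 ≤ (gf n : ℝ) ∧ (gf n : ℝ) ≤ C * (n : ℝ) ^ 2 :=
  ⟨gf_spec, gf_order⟩

end Pool.Agent.Results.MP_0c755a_co.OrderOfGrowth
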